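import Pool.Agent.Helper37.SU.Stmts

set_option autoImplicit false

/-! Approximation of the mixed Sobolev class by trigonometric polynomials (MP_aa31b4_an). -/

namespace Pool.Agent.Helper37.SU

open MeasureTheory Finset
open scoped ENNReal Classical

theorem den_ip1 : IsProbabilityMeasure haar1 := by
  unfold haar1
  infer_instance

theorem den_ah1 : haar1.IsAddHaarMeasure := by
  unfold haar1
  infer_instance

theorem den_ip (d : ℕ) : IsProbabilityMeasure (haar d) := by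
  unfold haar
  have := den_ip1
  infer_instance

theorem den_ah (d : ℕ) : (haar d).IsAddHaarMeasure := by
  unfold haar
  have := den_ip1
  have := den_ah1
  infer_instance

theorem den_reg (d : ℕ) : (haar d).Regular := by
  have := den_ip d
  infer_instance

theorem den_ni (d : ℕ) : (haar d).IsNegInvariant := by
  have := den_ip d
  have := den_ah d
  have := den_reg d
  infer_instance

/-- the kernel -/
noncomputable def den_K (d J : ℕ) (t : TT d) : ℂ := ∏ i, vp 3 J (t i)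

/-- its frequencies -/
noncomputable def den_L (d J : ℕ) : Finset (Fin d → ℤ) :=
  Fintype.piFinset fun _ => Icc (-(((3 : ℕ) : ℤ) ^ J)) (((3 : ℕ) : ℤ) ^ J)

/-- its coefficients -/
noncomputable def den_w {d : ℕ} (J : ℕ) (k : Fin d → ℤ) : ℂ :=
  ∏ i, ((om ((k i : ℝ) / ((3 : ℕ) : ℝ) ^ J) : ℝ) : ℂ)

theorem den_four (n : ℤ) (x y : UnitAddCircle) :
    (fourier n (x - y) : ℂ) = fourier n x * fourier (-n) y := by
  rw [fourier_apply, fourier_apply, fourier_apply, smul_sub, sub_eq_add_neg,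
    AddCircle.toCircle_add, neg_smul]
  push_cast
  rfl

theorem den_exp {d : ℕ} (J : ℕ) (t y : TT d) :
    den_K d J (t - y) = ∑ k ∈ den_L d J, (den_w J k * ∏ i, (fourier (k i) (t i) : ℂ)) *
      ∏ i, (fourier (-(k i)) (y i) : ℂ) := by
  unfold den_K vp den_L
  rw [Finset.prod_univ_sum]
  refine Finset.sum_congr rfl fun k _ => ?_
  unfold den_w
  rw [← Finset.prod_mul_distrib, ← Finset.prod_mul_distrib]
  refine Finset.prod_congr rfl fun i _ => ?_
  rw [Pi.sub_apply, den_four]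
  ring

theorem den_fcont {d : ℕ} (k : Fin d → ℤ) :
    Continuous (fun y : TT d => ∏ i, (fourier (k i) (y i) : ℂ)) := by
  fun_prop

theorem den_fnorm {d : ℕ} (k : Fin d → ℤ) (y : TT d) :
    ‖∏ i, (fourier (k i) (y i) : ℂ)‖ = 1 := by
  rw [norm_prod]
  refine Finset.prod_eq_one fun i _ => ?_
  rw [fourier_apply]
  exact Circle.norm_coe _

theorem den_kcont (d J : ℕ) : Continuous (den_K d J) := by
  unfold den_K vp
  fun_prop

theorem den_fint {d : ℕ} (k : Fin d → ℤ) (ψ : TT d → ℂ) (hψ : Integrable ψ (haar d)) :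
    Integrable (fun y => (∏ i, (fourier (k i) (y i) : ℂ)) * ψ y) (haar d) := by
  refine hψ.bdd_mul (c := 1) (den_fcont k).aestronglyMeasurable ?_
  exact Filter.Eventually.of_forall fun y => (den_fnorm k y).le

/-- convolutions with the kernel -/
theorem den_conv {d : ℕ} (J : ℕ) (ψ : TT d → ℂ) (hψ : Integrable ψ (haar d)) (t : TT d) :
    ∫ y, den_K d J (t - y) * ψ y ∂haar d = tp (den_L d J) (fun k => den_w J k *
      ∫ y, (∏ i, (fourier (-(k i)) (y i) : ℂ)) * ψ y ∂haar d) t := by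
  have h1 : ∀ y, den_K d J (t - y) * ψ y = ∑ k ∈ den_L d J,
      (den_w J k * ∏ i, (fourier (k i) (t i) : ℂ)) *
        ((∏ i, (fourier (-(k i)) (y i) : ℂ)) * ψ y) := by
    intro y
    rw [den_exp, Finset.sum_mul]
    refine Finset.sum_congr rfl fun k _ => ?_
    ring
  simp only [h1]
  rw [integral_finsetSum]
  · unfold tp
    refine Finset.sum_congr rfl fun k _ => ?_
    rw [integral_const_mul]
    ring
  · intro k _
    exact (den_fint (fun i => -(k i)) ψ hψ).const_mul _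

/-- the kernels are bounded in `L_1` -/
theorem den_mass (h1 : ST_VPB) (h2 : ST_EVI) (d : ℕ) : ∃ C : ℝ, 0 < C ∧ ∀ J : ℕ,
    ∫ y, ‖den_K d J y‖ ∂haar d ≤ C := by
  obtain ⟨C1, hC1, hv⟩ := h1 3 (by norm_num)
  obtain ⟨C2, hC2, he, -⟩ := h2 3 d (by norm_num)
  refine ⟨C1 ^ d * C2, by positivity, fun J => ?_⟩
  obtain ⟨hi, hb⟩ := he (fun _ => J) 0
  have hle : ∀ y, ‖den_K d J y‖ ≤
      (C1 * ((3 : ℕ) : ℝ) ^ J) ^ d * ∏ i, ev 3 J (y i - (0 : TT d) i) := by
    intro y
    unfold den_K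
    rw [norm_prod]
    have h3 : (C1 * ((3 : ℕ) : ℝ) ^ J) ^ d = ∏ _i : Fin d, (C1 * ((3 : ℕ) : ℝ) ^ J) := by simp
    rw [h3, ← Finset.prod_mul_distrib]
    refine Finset.prod_le_prod (fun i _ => norm_nonneg _) fun i _ => ?_
    rw [Pi.zero_apply, sub_zero]
    exact (hv J (y i) (y i)).1
  calc ∫ y, ‖den_K d J y‖ ∂haar d
      ≤ ∫ y : TT d, (C1 * ((3 : ℕ) : ℝ) ^ J) ^ d * ∏ i, ev 3 J (y i - (0 : TT d) i) ∂haar d :=
        integral_mono_of_nonneg (Filter.Eventually.of_forall fun y => norm_nonneg _)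
          (hi.const_mul _) (Filter.Eventually.of_forall hle)
    _ = (C1 * ((3 : ℕ) : ℝ) ^ J) ^ d * ∫ y : TT d, ∏ i, ev 3 J (y i - (0 : TT d) i) ∂haar d :=
        integral_const_mul _ _
    _ ≤ (C1 * ((3 : ℕ) : ℝ) ^ J) ^ d * (C2 * (((3 : ℕ) : ℝ) ^ (∑ _i : Fin d, J))⁻¹) :=
        mul_le_mul_of_nonneg_left hb (by positivity)
    _ = C1 ^ d * C2 := by
        rw [Finset.sum_const, Finset.card_univ, Fintype.card_fin, smul_eq_mul, mul_pow,
          ← pow_mul, mul_comm J d]
        have : (((3 : ℕ) : ℝ) ^ (d * J)) ≠ 0 := by positivity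
        field_simp

/-- Jensen's inequality -/
theorem den_jen {X : Type} [MeasurableSpace X] (μ : Measure X) (k : X → ℝ≥0∞)
    (hk : Measurable k) (ψ : X → ℂ) (hψ : Measurable ψ) (p : ℝ) (hp : 1 ≤ p) :
    (∫⁻ y, k y * ‖ψ y‖ₑ ∂μ) ^ p ≤ (∫⁻ y, k y ∂μ) ^ (p - 1) * ∫⁻ y, k y * ‖ψ y‖ₑ ^ p ∂μ := by
  have hp0 : 0 < p := by linarith
  have hpp : ENNReal.ofReal p ≠ 0 := by
    rw [Ne, ENNReal.ofReal_eq_zero]
    linarith
  have h1p : (1 : ℝ≥0∞) ≤ ENNReal.ofReal p := by
    rw [← ENNReal.ofReal_one]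
    exact ENNReal.ofReal_le_ofReal hp
  have h := eLpNorm_le_eLpNorm_mul_rpow_measure_univ (μ := μ.withDensity k) h1p
    hψ.aestronglyMeasurable
  rw [eLpNorm_one_eq_lintegral_enorm, eLpNorm_eq_lintegral_rpow_enorm_toReal hpp
    ENNReal.ofReal_ne_top, ENNReal.toReal_ofReal hp0.le, withDensity_apply _ MeasurableSet.univ,
    lintegral_withDensity_eq_lintegral_mul _ hk hψ.enorm,
    lintegral_withDensity_eq_lintegral_mul _ hk (hψ.enorm.pow_const p)] at h
  simp only [Pi.mul_apply, ENNReal.toReal_one, Measure.restrict_univ] at h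
  have h2 := ENNReal.rpow_le_rpow h hp0.le
  refine h2.trans (le_of_eq ?_)
  rw [ENNReal.mul_rpow_of_nonneg _ _ hp0.le, ← ENNReal.rpow_mul, ← ENNReal.rpow_mul,
    one_div_mul_cancel hp0.ne', ENNReal.rpow_one, mul_comm]
  congr 2
  field_simp

/-- Young's inequality -/
theorem den_young {d : ℕ} (J : ℕ) (p : ℝ) (hp : 1 ≤ p)
    (ψ : TT d → ℂ) (hψ : Measurable ψ) :
    eLpNorm (fun t => ∫ y, den_K d J (t - y) * ψ y ∂haar d) (ENNReal.ofReal p) (haar d) ≤
      (∫⁻ y, ‖den_K d J y‖ₑ ∂haar d) * eLpNorm ψ (ENNReal.ofReal p) (haar d) := by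
  have := den_ip d
  have := den_ah d
  have := den_ni d
  have hp0 : 0 < p := by linarith
  have hpp : ENNReal.ofReal p ≠ 0 := by
    rw [Ne, ENNReal.ofReal_eq_zero]
    linarith
  set A : ℝ≥0∞ := ∫⁻ y, ‖den_K d J y‖ₑ ∂haar d with hA
  have hKm : Measurable (fun y : TT d => ‖den_K d J y‖ₑ) := (den_kcont d J).measurable.enorm
  have hKt : ∀ t : TT d, Measurable (fun y : TT d => ‖den_K d J (t - y)‖ₑ) := by
    intro t
    exact ((den_kcont d J).comp (continuous_const.sub continuous_id)).measurable.enorm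
  have hA1 : ∀ t : TT d, ∫⁻ y, ‖den_K d J (t - y)‖ₑ ∂haar d = A := fun t =>
    lintegral_sub_left_eq_self (fun y : TT d => ‖den_K d J y‖ₑ) t
  have hA2 : ∀ y : TT d, ∫⁻ t, ‖den_K d J (t - y)‖ₑ ∂haar d = A := fun y =>
    lintegral_sub_right_eq_self (fun t : TT d => ‖den_K d J t‖ₑ) y
  have hpt : ∀ t : TT d, ‖∫ y, den_K d J (t - y) * ψ y ∂haar d‖ₑ ^ p ≤
      A ^ (p - 1) * ∫⁻ y, ‖den_K d J (t - y)‖ₑ * ‖ψ y‖ₑ ^ p ∂haar d := by
    intro t
    rw [← hA1 t]
    refine le_trans (ENNReal.rpow_le_rpow ?_ hp0.le) (den_jen (haar d) _ (hKt t) ψ hψ p hp)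
    refine (enorm_integral_le_lintegral_enorm _).trans (le_of_eq ?_)
    refine lintegral_congr fun y => ?_
    rw [enorm_mul]
  rw [eLpNorm_eq_lintegral_rpow_enorm_toReal hpp ENNReal.ofReal_ne_top,
    eLpNorm_eq_lintegral_rpow_enorm_toReal hpp ENNReal.ofReal_ne_top,
    ENNReal.toReal_ofReal hp0.le]
  have hjoint : Measurable (fun z : TT d × TT d => ‖den_K d J (z.1 - z.2)‖ₑ * ‖ψ z.2‖ₑ ^ p) := by
    have h1 : Measurable (fun z : TT d × TT d => ‖den_K d J (z.1 - z.2)‖ₑ) :=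
      ((den_kcont d J).comp (continuous_fst.sub continuous_snd)).measurable.enorm
    exact h1.mul ((hψ.comp measurable_snd).enorm.pow_const p)
  have hsw : ∫⁻ t, ∫⁻ y, ‖den_K d J (t - y)‖ₑ * ‖ψ y‖ₑ ^ p ∂haar d ∂haar d
      = A * ∫⁻ y, ‖ψ y‖ₑ ^ p ∂haar d := by
    rw [lintegral_lintegral_swap hjoint.aemeasurable]
    rw [← lintegral_const_mul _ (hψ.enorm.pow_const p)]
    refine lintegral_congr fun y => ?_
    have h1 : Measurable (fun t : TT d => ‖den_K d J (t - y)‖ₑ) :=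
      ((den_kcont d J).comp (continuous_id.sub continuous_const)).measurable.enorm
    rw [lintegral_mul_const _ h1, hA2 y]
  have hmain : ∫⁻ t, ‖∫ y, den_K d J (t - y) * ψ y ∂haar d‖ₑ ^ p ∂haar d ≤
      A ^ p * ∫⁻ y, ‖ψ y‖ₑ ^ p ∂haar d := by
    refine (lintegral_mono hpt).trans ?_
    have hm : Measurable (fun t : TT d => ∫⁻ y, ‖den_K d J (t - y)‖ₑ * ‖ψ y‖ₑ ^ p ∂haar d) :=
      hjoint.lintegral_prod_right'
    rw [lintegral_const_mul _ hm, hsw, ← mul_assoc]
    refine mul_le_mul_left (le_of_eq ?_) _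
    have h1 : p = (p - 1) + 1 := by ring
    have h2 : A ^ p = A ^ (p - 1) * A ^ (1 : ℝ) := by
      conv_lhs => rw [h1]
      exact ENNReal.rpow_add_of_nonneg _ _ (by linarith) (by norm_num)
    rw [h2, ENNReal.rpow_one]
  refine (ENNReal.rpow_le_rpow hmain (by positivity)).trans (le_of_eq ?_)
  rw [ENNReal.mul_rpow_of_nonneg _ _ (by positivity), ← ENNReal.rpow_mul,
    mul_one_div_cancel hp0.ne', ENNReal.rpow_one]

/-- integrals of characters of the circle -/
theorem den_int1 (n : ℤ) : ∫ x, (fourier n x : ℂ) ∂haar1 = if n = 0 then 1 else 0 := by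
  have := den_ip1
  have := den_ah1
  split_ifs with h
  · subst h
    have : ⇑(@fourier 1 0) = (fun _ => 1 : UnitAddCircle → ℂ) := by
      ext1
      exact fourier_zero
    rw [this, integral_const, probReal_univ]
    simp
  · exact integral_eq_zero_of_add_right_eq_neg (fourier_add_half_inv_index h one_pos)

/-- orthogonality -/
theorem den_orth {d : ℕ} (k n : Fin d → ℤ) :
    ∫ y, (∏ i, (fourier (-(k i)) (y i) : ℂ)) * ∏ i, (fourier (n i) (y i) : ℂ) ∂haar d =
      if k = n then 1 else 0 := by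
  have := den_ip1
  have h1 : ∀ y : TT d, (∏ i, (fourier (-(k i)) (y i) : ℂ)) * ∏ i, (fourier (n i) (y i) : ℂ) =
      ∏ i, (fourier (-(k i) + n i) (y i) : ℂ) := by
    intro y
    rw [← Finset.prod_mul_distrib]
    refine Finset.prod_congr rfl fun i _ => ?_
    rw [fourier_add]
  simp only [h1]
  unfold haar
  rw [integral_fintype_prod_eq_prod (fun i (x : UnitAddCircle) => (fourier (-(k i) + n i) x : ℂ))]
  simp only [den_int1]
  split_ifs with h
  · subst h
    simp
  · have : ∃ i, k i ≠ n i := by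
      by_contra hc
      push Not at hc
      exact h (funext hc)
    obtain ⟨i, hi⟩ := this
    refine Finset.prod_eq_zero (mem_univ i) ?_
    rw [if_neg]
    intro h0
    exact hi (by linarith)

/-- characters are reproduced -/
theorem den_rep (hom : ∀ ξ, |ξ| ≤ 1 / 4 → om ξ = 1) {d : ℕ} (n : Fin d → ℤ) :
    ∃ J0 : ℕ, ∀ J : ℕ, J0 ≤ J → ∀ t : TT d,
    ∫ y, den_K d J (t - y) * ∏ i, (fourier (n i) (y i) : ℂ) ∂haar d =
      ∏ i, (fourier (n i) (t i) : ℂ) := by
  have := den_ip d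
  refine ⟨∑ i, 4 * (n i).natAbs, fun J hJ t => ?_⟩
  have hb : ∀ i, 4 * |(n i : ℝ)| ≤ ((3 : ℕ) : ℝ) ^ J := by
    intro i
    have h1 : 4 * (n i).natAbs ≤ J :=
      (Finset.single_le_sum (f := fun i => 4 * (n i).natAbs) (fun _ _ => Nat.zero_le _)
        (mem_univ i)).trans hJ
    have h2 : J < 3 ^ J := Nat.lt_pow_self (by norm_num)
    have h3 : 4 * (n i).natAbs ≤ 3 ^ J := h1.trans h2.le
    have h4 : ((4 * (n i).natAbs : ℕ) : ℝ) ≤ ((3 ^ J : ℕ) : ℝ) := by exact_mod_cast h3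
    have h5 : ((n i).natAbs : ℝ) = |(n i : ℝ)| := by
      rw [Nat.cast_natAbs, Int.cast_abs]
    push_cast at h4
    rw [h5] at h4
    push_cast
    exact h4
  have hint : Integrable (fun y : TT d => ∏ i, (fourier (n i) (y i) : ℂ)) (haar d) :=
    (den_fcont n).integrable_of_hasCompactSupport (HasCompactSupport.of_compactSpace _)
  rw [den_conv J _ hint t]
  unfold tp
  simp only [den_orth]
  have hn : n ∈ den_L d J := by
    unfold den_L
    rw [Fintype.mem_piFinset]
    intro i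
    have h1 := hb i
    have h2 : |(n i : ℝ)| ≤ ((3 : ℕ) : ℝ) ^ J := by
      have := abs_nonneg (n i : ℝ)
      linarith
    have h3 : |n i| ≤ ((3 : ℕ) : ℤ) ^ J := by exact_mod_cast h2
    rw [Finset.mem_Icc]
    exact abs_le.mp h3
  rw [Finset.sum_eq_single n]
  · rw [if_pos rfl, mul_one]
    have : (den_w J n : ℂ) = 1 := by
      unfold den_w
      refine Finset.prod_eq_one fun i _ => ?_
      rw [hom, Complex.ofReal_one]
      have hpos : (0 : ℝ) < ((3 : ℕ) : ℝ) ^ J := by positivity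
      rw [abs_div, abs_of_pos hpos, div_le_iff₀ hpos]
      have h6 := hb i
      have h7 : 1 / 4 * (4 * |(n i : ℝ)|) ≤ 1 / 4 * ((3 : ℕ) : ℝ) ^ J :=
        mul_le_mul_of_nonneg_left h6 (by norm_num)
      have h8 : 1 / 4 * (4 * |(n i : ℝ)|) = |(n i : ℝ)| := by ring
      rw [h8] at h7
      exact h7
    rw [this, one_mul]
  · intro k _ hk
    rw [if_neg hk, mul_zero, zero_mul]
  · intro h
    exact absurd hn h

/-- trigonometric polynomials are reproduced -/
theorem den_rep2 (hom : ∀ ξ, |ξ| ≤ 1 / 4 → om ξ = 1) {d : ℕ} (P : C(TT d, ℂ))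
    (hP : P ∈ Submodule.span ℂ (Set.range (UnitAddTorus.mFourier (d := Fin d)))) :
    ∃ J0 : ℕ, ∀ J : ℕ, J0 ≤ J → ∀ t : TT d,
    ∫ y, den_K d J (t - y) * P y ∂haar d = P t := by
  have := den_ip d
  have hint : ∀ (J : ℕ) (t : TT d) (Q : C(TT d, ℂ)),
      Integrable (fun y => den_K d J (t - y) * Q y) (haar d) := by
    intro J t Q
    have hc : Continuous (fun y => den_K d J (t - y) * Q y) :=
      ((den_kcont d J).comp (continuous_const.sub continuous_id)).mul Q.continuous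
    exact hc.integrable_of_hasCompactSupport (HasCompactSupport.of_compactSpace _)
  induction hP using Submodule.span_induction with
  | mem x hx =>
    obtain ⟨n, rfl⟩ := hx
    exact den_rep hom n
  | zero =>
    refine ⟨0, fun J _ t => ?_⟩
    simp
  | add x y _ _ hx hy =>
    obtain ⟨J1, h1⟩ := hx
    obtain ⟨J2, h2⟩ := hy
    refine ⟨max J1 J2, fun J hJ t => ?_⟩
    simp only [ContinuousMap.add_apply, mul_add]
    rw [integral_add (hint J t x) (hint J t y), h1 J (le_trans (le_max_left _ _) hJ),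
      h2 J (le_trans (le_max_right _ _) hJ)]
  | smul a x _ hx =>
    obtain ⟨J1, h1⟩ := hx
    refine ⟨J1, fun J hJ t => ?_⟩
    have h3 : ∀ y, den_K d J (t - y) * (a • x) y = a * (den_K d J (t - y) * x y) := by
      intro y
      rw [ContinuousMap.smul_apply, smul_eq_mul]
      ring
    simp only [h3]
    rw [integral_const_mul, h1 J hJ, ContinuousMap.smul_apply, smul_eq_mul]

/-- uniform approximation -/
theorem den_unif (hom : ∀ ξ, |ξ| ≤ 1 / 4 → om ξ = 1) {d : ℕ} (A : ℝ) (hA0 : 0 < A)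
    (hA : ∀ J, ∫ y, ‖den_K d J y‖ ∂haar d ≤ A) (f : TT d → ℂ) (hf : Continuous f) (ε : ℝ)
    (hε : 0 < ε) : ∃ J, ∀ t, ‖f t - ∫ y, den_K d J (t - y) * f y ∂haar d‖ ≤ ε := by
  have := den_ip d
  have := den_ah d
  have := den_ni d
  obtain ⟨δ, hδ⟩ : ∃ δ : ℝ, δ = ε / (1 + A) := ⟨_, rfl⟩
  have hδ0 : 0 < δ := by
    rw [hδ]
    positivity
  have hcl : (⟨f, hf⟩ : C(TT d, ℂ)) ∈
      closure (Submodule.span ℂ (Set.range (UnitAddTorus.mFourier (d := Fin d))) : Set C(TT d, ℂ)) := by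
    have h1 := UnitAddTorus.span_mFourier_closure_eq_top (d := Fin d)
    have h2 : (⟨f, hf⟩ : C(TT d, ℂ)) ∈
        (Submodule.span ℂ (Set.range (UnitAddTorus.mFourier (d := Fin d)))).topologicalClosure := by
      rw [h1]
      exact Submodule.mem_top
    exact h2
  obtain ⟨P, hP, hPd⟩ := Metric.mem_closure_iff.mp hcl δ hδ0
  obtain ⟨J, hJ⟩ := den_rep2 hom P hP
  refine ⟨J, fun t => ?_⟩
  have hfP : ∀ y, ‖f y - P y‖ ≤ δ := by
    intro y
    have h1 := ContinuousMap.dist_apply_le_dist (f := (⟨f, hf⟩ : C(TT d, ℂ))) (g := P) y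
    rw [dist_eq_norm] at h1
    exact (h1.trans hPd.le)
  have hc1 : Continuous (fun y => den_K d J (t - y)) :=
    (den_kcont d J).comp (continuous_const.sub continuous_id)
  have hi1 : Integrable (fun y => den_K d J (t - y) * f y) (haar d) :=
    (hc1.mul hf).integrable_of_hasCompactSupport (HasCompactSupport.of_compactSpace _)
  have hi2 : Integrable (fun y => den_K d J (t - y) * P y) (haar d) :=
    (hc1.mul P.continuous).integrable_of_hasCompactSupport (HasCompactSupport.of_compactSpace _)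
  have hi3 : Integrable (fun y => ‖den_K d J (t - y)‖) (haar d) :=
    hc1.norm.integrable_of_hasCompactSupport (HasCompactSupport.of_compactSpace _)
  have e1 : f t - ∫ y, den_K d J (t - y) * f y ∂haar d =
      (f t - P t) - ∫ y, den_K d J (t - y) * (f y - P y) ∂haar d := by
    have h3 : ∀ y, den_K d J (t - y) * (f y - P y) =
        den_K d J (t - y) * f y - den_K d J (t - y) * P y := fun y => by ring
    simp only [h3]
    rw [integral_sub hi1 hi2, hJ J le_rfl t]
    ring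
  rw [e1]
  have e2 : ‖∫ y, den_K d J (t - y) * (f y - P y) ∂haar d‖ ≤ A * δ := by
    calc ‖∫ y, den_K d J (t - y) * (f y - P y) ∂haar d‖
        ≤ ∫ y, ‖den_K d J (t - y)‖ * δ ∂haar d := by
          refine norm_integral_le_of_norm_le (hi3.mul_const δ) ?_
          refine Filter.Eventually.of_forall fun y => ?_
          rw [norm_mul]
          exact mul_le_mul_of_nonneg_left (hfP y) (norm_nonneg _)
      _ = (∫ y, ‖den_K d J (t - y)‖ ∂haar d) * δ := integral_mul_const _ _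
      _ = (∫ y, ‖den_K d J y‖ ∂haar d) * δ := by
          rw [integral_sub_left_eq_self (fun y => ‖den_K d J y‖) (haar d) t]
      _ ≤ A * δ := mul_le_mul_of_nonneg_right (hA J) hδ0.le
  calc ‖(f t - P t) - ∫ y, den_K d J (t - y) * (f y - P y) ∂haar d‖
      ≤ ‖f t - P t‖ + ‖∫ y, den_K d J (t - y) * (f y - P y) ∂haar d‖ := norm_sub_le _ _
    _ ≤ δ + A * δ := add_le_add (hfP t) e2
    _ = ε := by
        rw [hδ]
        field_simp

theorem den_toC {𝕜 : Type} [RCLike 𝕜] : Continuous (SN.toC : 𝕜 → ℂ) := by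
  have h : (SN.toC : 𝕜 → ℂ) = fun z => ((RCLike.re z : ℝ) : ℂ) + ((RCLike.im z : ℝ) : ℂ) * Complex.I := by
    funext z
    unfold SN.toC
    apply Complex.ext <;> simp
  rw [h]
  have h1 : Continuous (fun z : 𝕜 => RCLike.re z) := RCLike.continuous_re
  have h2 : Continuous (fun z : 𝕜 => RCLike.im z) := RCLike.continuous_im
  exact (Complex.continuous_ofReal.comp h1).add
    ((Complex.continuous_ofReal.comp h2).mul continuous_const)

theorem den_norm {𝕜 : Type} [RCLike 𝕜] (z : 𝕜) : ‖SN.toC z‖ = ‖z‖ := by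
  have h1 : ‖SN.toC z‖ ^ 2 = ‖z‖ ^ 2 := by
    rw [Complex.sq_norm, Complex.normSq_apply, RCLike.norm_sq_eq_def (z := z)]
    rfl
  exact (sq_eq_sq₀ (norm_nonneg _) (norm_nonneg _)).mp h1

theorem den_mult (r : ℝ) (n : ℤ) : SN.kernelCoeff r n = mult r n := rfl

theorem st_DEN (h1 : ST_VPB) (h2 : ST_EVI) (h3 : ST_OM) : ST_DEN := by
  intro 𝕜 _ d r p hp
  have := den_ip d
  have hom := h3.2.1
  obtain ⟨A, hA0, hA⟩ := den_mass h1 h2 d
  refine ⟨A, hA0, ?_⟩
  rintro f ⟨hfc, φ, hφm, hφn, hco⟩ ε hε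
  obtain ⟨J, hJ⟩ := den_unif hom A hA0 hA (fun t => SN.toC (f t)) (den_toC.comp hfc) ε hε
  have hp1 : (1 : ℝ≥0∞) ≤ ENNReal.ofReal p := by
    rw [← ENNReal.ofReal_one]
    exact ENNReal.ofReal_le_ofReal hp
  -- a measurable representative
  have hφm' : AEStronglyMeasurable (fun y => SN.toC (φ y)) (haar d) :=
    den_toC.comp_aestronglyMeasurable hφm
  obtain ⟨ψ, hψm, hψe⟩ : ∃ ψ : TT d → ℂ, Measurable ψ ∧
      (fun y => SN.toC (φ y)) =ᵐ[haar d] ψ :=
    ⟨hφm'.mk _, hφm'.stronglyMeasurable_mk.measurable, hφm'.ae_eq_mk⟩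
  have hψn : eLpNorm ψ (ENNReal.ofReal p) (haar d) ≤ 1 := by
    rw [← eLpNorm_congr_ae hψe]
    refine le_trans (le_of_eq ?_) hφn
    exact eLpNorm_congr_norm_ae (Filter.Eventually.of_forall fun y => den_norm (φ y))
  have hψi : Integrable ψ (haar d) := by
    have h4 : MemLp ψ (ENNReal.ofReal p) (haar d) :=
      ⟨hψm.aestronglyMeasurable, lt_of_le_of_lt hψn ENNReal.one_lt_top⟩
    exact h4.integrable hp1
  have hcoef : ∀ k : Fin d → ℤ, ∫ y, (∏ i, (fourier (-(k i)) (y i) : ℂ)) * ψ y ∂haar d =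
      SN.torusCoeff φ k := by
    intro k
    unfold SN.torusCoeff
    refine integral_congr_ae ?_
    filter_upwards [hψe] with y hy
    rw [← hy]
  have hfint : Integrable (fun t => SN.toC (f t)) (haar d) :=
    (den_toC.comp hfc).integrable_of_hasCompactSupport (HasCompactSupport.of_compactSpace _)
  refine ⟨den_L d J, fun k => den_w J k * SN.torusCoeff φ k, ?_, ?_⟩
  · have e1 : tp (den_L d J) (fun k => den_w J k * SN.torusCoeff φ k) =
        fun t => ∫ y, den_K d J (t - y) * ψ y ∂haar d := by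
      funext t
      rw [den_conv J ψ hψi t]
      simp only [hcoef]
    rw [e1]
    refine (den_young J p hp ψ hψm).trans ?_
    have e2 : ∫⁻ y, ‖den_K d J y‖ₑ ∂haar d ≤ ENNReal.ofReal A := by
      have hi : Integrable (den_K d J) (haar d) :=
        (den_kcont d J).integrable_of_hasCompactSupport (HasCompactSupport.of_compactSpace _)
      rw [← ofReal_integral_norm_eq_lintegral_enorm hi]
      exact ENNReal.ofReal_le_ofReal (hA J)
    calc (∫⁻ y, ‖den_K d J y‖ₑ ∂haar d) * eLpNorm ψ (ENNReal.ofReal p) (haar d)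
        ≤ ENNReal.ofReal A * 1 := mul_le_mul' e2 hψn
      _ = ENNReal.ofReal A := mul_one _
  · intro t
    have e1 : tp (den_L d J) (mc r fun k => den_w J k * SN.torusCoeff φ k) t =
        ∫ y, den_K d J (t - y) * SN.toC (f y) ∂haar d := by
      rw [den_conv J _ hfint t]
      unfold tp
      refine Finset.sum_congr rfl fun k _ => ?_
      congr 1
      unfold mc
      beta_reduce
      have e2 : ∫ y, (∏ i, (fourier (-(k i)) (y i) : ℂ)) * SN.toC (f y) ∂haar d =
          SN.torusCoeff f k := rfl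
      rw [e2, hco k]
      simp only [den_mult]
      ring
    rw [e1]
    exact hJ t

end Pool.Agent.Helper37.SU
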